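import Pool.Agent.H.MP_33e188_co.C

set_option autoImplicit false

namespace Pool.Agent.Results.MP_33e188_co.Width

open Pool.Agent.H.MP_33e188_co

/-- The largest local dimension of a finite poset of width `w` is `w`. -/
theorem result (w : ℕ) (hw : 1 ≤ w) :
    IsGreatest {d | ∃ (P : Type) (_ : Fintype P) (_ : PartialOrder P),
      HasWidth P w ∧ ldim P = d} w := by
  constructor
  · obtain ⟨t, rfl⟩ : ∃ t, w = t + 1 := ⟨w - 1, by omega⟩
    rcases Nat.eq_zero_or_pos t with rfl | ht
    · exact ⟨_, inferInstance, inferInstance, width_PP 1 1 0,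
        le_antisymm (ldim_le _ (width_PP 1 1 0)) lower_one⟩
    · obtain ⟨S, M, h⟩ := lower t ht
      exact ⟨_, inferInstance, inferInstance, width_PP _ S M,
        le_antisymm (ldim_le _ (width_PP _ S M)) h⟩
  · rintro d ⟨P, _, _, h, rfl⟩
    exact ldim_le w h

end Pool.Agent.Results.MP_33e188_co.Width
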